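import Mathlib

/-!
# MacMahon's primes of measurement: `m n ≤ (3/8) n ^ 2` for all large `n`
-/

set_option autoImplicit false

namespace Pool.Agent.Results.MP_bfbd7b_nt.QuadraticBound

open Finset

/-- `m 1 < m 2 < ⋯` are MacMahon's primes of measurement: `m 1 = 1`, and `m (n + 1)` is the least
`x > m n` which is not a sum `m i + ⋯ + m j` with `1 ≤ i < j ≤ n`. (The value `m 0` is not used.) -/
structure IsMacMahon (m : ℕ → ℕ) : Prop where
  one : m 1 = 1
  succ : ∀ n, 1 ≤ n → IsLeast {x : ℕ | m n < x ∧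
    ∀ i j, 1 ≤ i → i < j → j ≤ n → x ≠ ∑ k ∈ Icc i j, m k} (m (n + 1))

variable {m : ℕ → ℕ}

theorem lt_succ (hm : IsMacMahon m) {n : ℕ} (hn : 1 ≤ n) : m n < m (n + 1) :=
  (hm.succ n hn).1.1

theorem mono (hm : IsMacMahon m) {a b : ℕ} (ha : 1 ≤ a) (hab : a ≤ b) : m a + (b - a) ≤ m b := by
  induction b, hab using Nat.le_induction with
  | base => simp
  | succ b hb ih =>
    have := lt_succ hm (le_trans ha hb)
    omega

theorem le_self (hm : IsMacMahon m) {n : ℕ} (hn : 1 ≤ n) : n ≤ m n := by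
  have := mono hm le_rfl hn
  have h1 := hm.one
  omega

/-- the indices of the terms `≤ x` -/
def idx (m : ℕ → ℕ) (x : ℕ) : Finset ℕ := (Icc 1 x).filter (fun n => m n ≤ x)

/-- the number of terms `≤ x` -/
def cnt (m : ℕ → ℕ) (x : ℕ) : ℕ := (idx m x).card

theorem mem_idx (hm : IsMacMahon m) {x n : ℕ} : n ∈ idx m x ↔ 1 ≤ n ∧ m n ≤ x := by
  unfold idx
  rw [mem_filter, mem_Icc]
  constructor
  · exact fun h => ⟨h.1.1, h.2⟩
  · rintro ⟨h1, h2⟩
    exact ⟨⟨h1, (le_self hm h1).trans h2⟩, h2⟩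

/-- a sum of two consecutive terms is not a term -/
theorem two_ne (hm : IsMacMahon m) {i n : ℕ} (hi : 1 ≤ i) (hn : 1 ≤ n) :
    m i + m (i + 1) ≠ m n := by
  intro h
  have h1 : i + 1 < n := by
    by_contra hcon
    have := mono hm hn (b := i + 1) (by omega)
    have h2 := le_self hm hi
    omega
  have h2 := (hm.succ (n - 1) (by omega)).1.2 i (i + 1) hi (by omega) (by omega)
  rw [Nat.sub_add_cancel hn] at h2
  apply h2
  rw [← h]
  rw [Finset.sum_Icc_succ_top (by omega)]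
  simp

theorem step (hm : IsMacMahon m) (y : ℕ) : cnt m (2 * y) ≤ y + 1 + cnt m (y / 2) := by
  -- terms in (y, 2y] and sums of two consecutive terms in (y/2, y]
  set S := (idx m (2 * y)) \ (idx m y) with hS
  set T := (idx m y) \ (idx m (y / 2)) with hT
  have hsub1 : idx m y ⊆ idx m (2 * y) := fun n hn => by
    rw [mem_idx hm] at hn ⊢
    exact ⟨hn.1, by omega⟩
  have hsub2 : idx m (y / 2) ⊆ idx m y := fun n hn => by
    rw [mem_idx hm] at hn ⊢
    exact ⟨hn.1, by omega⟩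
  have hSc : S.card + (idx m y).card = (idx m (2 * y)).card := card_sdiff_add_card_eq_card hsub1
  have hTc : T.card + (idx m (y / 2)).card = (idx m y).card := card_sdiff_add_card_eq_card hsub2
  -- T' : those with successor ≤ y
  set T' := T.filter (fun n => m (n + 1) ≤ y) with hT'
  have hT1 : T.card ≤ T'.card + 1 := by
    have h1 : (T.filter (fun n => ¬ m (n + 1) ≤ y)).card ≤ 1 := by
      rw [card_le_one]
      intro a ha b hb
      rw [mem_filter, hT, mem_sdiff, mem_idx hm] at ha hb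
      by_contra hne
      rcases lt_or_gt_of_ne hne with h | h
      · have := mono hm (a := a + 1) (b := b) (by omega) (by omega)
        omega
      · have := mono hm (a := b + 1) (b := a) (by omega) (by omega)
        omega
    have h2 : (T.filter (fun n => m (n + 1) ≤ y)).card + (T.filter (fun n => ¬ m (n + 1) ≤ y)).card
        = T.card := card_filter_add_card_filter_not _
    rw [hT']
    omega
  have hinjm : Set.InjOn m (S : Set ℕ) := by
    intro a ha b hb hab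
    rw [mem_coe, hS, mem_sdiff, mem_idx hm] at ha hb
    by_contra hne
    rcases lt_or_gt_of_ne hne with h | h
    · have := mono hm (a := a) (b := b) (by omega) (by omega)
      omega
    · have := mono hm (a := b) (b := a) (by omega) (by omega)
      omega
  have hinj2 : Set.InjOn (fun n => m n + m (n + 1)) (T' : Set ℕ) := by
    intro a ha b hb hab
    rw [mem_coe, hT', mem_filter, hT, mem_sdiff, mem_idx hm] at ha hb
    simp only at hab
    by_contra hne
    rcases lt_or_gt_of_ne hne with h | h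
    · have h1 := mono hm (a := a) (b := b) (by omega) (by omega)
      have h2 := mono hm (a := a + 1) (b := b + 1) (by omega) (by omega)
      omega
    · have h1 := mono hm (a := b) (b := a) (by omega) (by omega)
      have h2 := mono hm (a := b + 1) (b := a + 1) (by omega) (by omega)
      omega
  have hdisj : Disjoint (S.image m) (T'.image (fun n => m n + m (n + 1))) := by
    rw [disjoint_left]
    intro z hz1 hz2
    rw [mem_image] at hz1 hz2
    obtain ⟨a, ha, rfl⟩ := hz1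
    obtain ⟨b, hb, hab⟩ := hz2
    rw [hS, mem_sdiff, mem_idx hm] at ha
    rw [hT', mem_filter, hT, mem_sdiff, mem_idx hm] at hb
    exact two_ne hm hb.1.1.1 ha.1.1 hab
  have hsubI : (S.image m) ∪ (T'.image (fun n => m n + m (n + 1))) ⊆ Ioc y (2 * y) := by
    intro z hz
    rw [mem_union, mem_image, mem_image] at hz
    rw [mem_Ioc]
    rcases hz with ⟨a, ha, rfl⟩ | ⟨b, hb, rfl⟩
    · rw [hS, mem_sdiff, mem_idx hm, mem_idx hm] at ha
      have h1 : ¬ m a ≤ y := fun h => ha.2 ⟨ha.1.1, h⟩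
      omega
    · rw [hT', mem_filter, hT, mem_sdiff, mem_idx hm, mem_idx hm] at hb
      have h1 : ¬ m b ≤ y / 2 := fun h => hb.1.2 ⟨hb.1.1.1, h⟩
      have h2 := lt_succ hm hb.1.1.1
      omega
  have hcard := card_le_card hsubI
  rw [card_union_of_disjoint hdisj, card_image_of_injOn hinjm, card_image_of_injOn hinj2,
    Nat.card_Ioc] at hcard
  unfold cnt
  omega

theorem cnt_mono (hm : IsMacMahon m) {x y : ℕ} (h : x ≤ y) : cnt m x ≤ cnt m y := by
  apply card_le_card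
  intro n hn
  rw [mem_idx hm] at hn ⊢
  exact ⟨hn.1, hn.2.trans h⟩

/-- the upper density is at most `2/3` -/
theorem cnt_le (hm : IsMacMahon m) : ∀ x : ℕ, 3 * cnt m x ≤ 2 * x + 5 * Nat.log 2 x + 5 := by
  intro x
  induction x using Nat.strong_induction_on with
  | _ x ih =>
    rcases Nat.eq_zero_or_pos x with rfl | hx
    · have : cnt m 0 = 0 := by
        unfold cnt idx
        simp
      omega
    · have h1 := step hm ((x + 1) / 2)
      have h2 := cnt_mono hm (x := x) (y := 2 * ((x + 1) / 2)) (by omega)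
      rcases Nat.eq_zero_or_pos ((x + 1) / 2 / 2) with h0 | h0
      · rw [h0] at h1
        have : cnt m 0 = 0 := by
          unfold cnt idx
          simp
        omega
      · have h3 := ih ((x + 1) / 2 / 2) (by omega)
        have h4 : Nat.log 2 ((x + 1) / 2 / 2) + 1 ≤ Nat.log 2 x := by
          rw [← Nat.log_mul_base (by norm_num) (by omega)]
          apply Nat.log_mono_right
          omega
        omega

theorem cnt_self (hm : IsMacMahon m) {n : ℕ} (hn : 1 ≤ n) : cnt m (m n) = n := by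
  unfold cnt
  have : idx m (m n) = Icc 1 n := by
    ext k
    rw [mem_idx hm, mem_Icc]
    constructor
    · rintro ⟨h1, h2⟩
      refine ⟨h1, ?_⟩
      by_contra h
      have := mono hm hn (b := k) (by omega)
      omega
    · rintro ⟨h1, h2⟩
      refine ⟨h1, ?_⟩
      have := mono hm h1 h2
      omega
  rw [this, Nat.card_Icc]
  omega

/-- `m n ≥ (3/2) n - O(log n)` for every `n` -/
theorem lower (hm : IsMacMahon m) {n : ℕ} (hn : 1 ≤ n) :
    3 * n ≤ 2 * m n + 5 * Nat.log 2 n + 10 := by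
  have h1 := cnt_le hm (m n)
  rw [cnt_self hm hn] at h1
  rcases le_or_gt (2 * n) (m n) with h | h
  · omega
  · have h2 : Nat.log 2 (m n) ≤ Nat.log 2 n + 1 := by
      rw [← Nat.log_mul_base (by norm_num) (by omega)]
      apply Nat.log_mono_right
      omega
    omega

theorem dle {n j d s c b : ℝ} (h : d * (2 * j - d) ≤ b * n ^ 2) (hj : s * n < j) (hdj : d ≤ j)
    (hc : 0 < c) (hn : 0 < n) (hcs : b ≤ 2 * s * c - c ^ 2) : d ≤ c * n := by
  by_contra hcon
  rw [not_le] at hcon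
  have h1 : 0 ≤ (d - c * n) * (2 * j - d - c * n) :=
    mul_nonneg (by linarith) (by linarith)
  have h2 : 0 < c * n * (j - s * n) := mul_pos (mul_pos hc hn) (by linarith)
  have h3 : b * n ^ 2 ≤ (2 * s * c - c ^ 2) * n ^ 2 :=
    mul_le_mul_of_nonneg_right hcs (by positivity)
  nlinarith

/-- the box of pairs `(j, d)` with `s n < j ≤ t n`, `1 ≤ d ≤ c n` -/
noncomputable def bx (n : ℕ) (s t c : ℝ) : Finset (ℕ × ℕ) :=
  (Ioc ⌊s * n⌋₊ ⌊t * n⌋₊) ×ˢ (Icc 1 ⌊c * n⌋₊)

theorem bx_card (n : ℕ) (s t c : ℝ) (hs : 0 ≤ s) (hst : s ≤ t) (hc : 0 ≤ c) :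
    ((bx n s t c).card : ℝ) ≤ (t - s) * c * n ^ 2 + c * n := by
  unfold bx
  rw [card_product, Nat.card_Ioc, Nat.card_Icc, Nat.add_sub_cancel]
  push_cast
  have hn : (0 : ℝ) ≤ n := Nat.cast_nonneg n
  have h1 : ((⌊t * (n : ℝ)⌋₊ - ⌊s * (n : ℝ)⌋₊ : ℕ) : ℝ) ≤ (t - s) * n + 1 := by
    have h2 := Nat.lt_floor_add_one (s * (n : ℝ))
    have h3 := Nat.floor_le (mul_nonneg (hs.trans hst) hn)
    have h4 : 0 ≤ (t - s) * n := mul_nonneg (by linarith) hn
    rcases le_total ⌊s * (n : ℝ)⌋₊ ⌊t * (n : ℝ)⌋₊ with h | h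
    · rw [Nat.cast_sub h]
      linarith
    · rw [Nat.sub_eq_zero_of_le h]
      push_cast
      linarith
  have h5 := Nat.floor_le (mul_nonneg hc hn)
  calc ((⌊t * (n : ℝ)⌋₊ - ⌊s * (n : ℝ)⌋₊ : ℕ) : ℝ) * (⌊c * (n : ℝ)⌋₊ : ℝ)
      ≤ ((t - s) * n + 1) * (c * n) := by
        apply mul_le_mul h1 h5 (Nat.cast_nonneg _)
        have h4 : 0 ≤ (t - s) * n := mul_nonneg (by linarith) hn
        linarith
    _ = _ := by ring

theorem mem_bx {n : ℕ} {s t c b : ℝ} {j d : ℕ} (hn : 1 ≤ n)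
    (h : (d : ℝ) * (2 * j - d) ≤ b * n ^ 2) (hj : s * n < j) (hjt : (j : ℝ) ≤ t * n) (hdj : d ≤ j)
    (hd : 1 ≤ d) (hs : 0 ≤ s) (hc : 0 < c) (hcs : b ≤ 2 * s * c - c ^ 2) : (j, d) ∈ bx n s t c := by
  have hn' : (0 : ℝ) < n := by exact_mod_cast hn
  unfold bx
  rw [mem_product, mem_Ioc, mem_Icc]
  refine ⟨⟨?_, Nat.le_floor hjt⟩, hd, Nat.le_floor ?_⟩
  · exact (Nat.floor_lt (by positivity)).2 hj
  · exact dle h hj (by exact_mod_cast hdj) hc hn' hcs

theorem pairs (n : ℕ) (hn : 1 ≤ n) (W : Finset (ℕ × ℕ)) (hW : ∀ p ∈ W, 1 ≤ p.2 ∧ p.2 ≤ p.1 ∧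
    p.1 ≤ n ∧ (p.2 : ℝ) * (2 * p.1 - p.2) ≤ 0.501 * n ^ 2) :
    (W.card : ℝ) ≤ 0.374776 * n ^ 2 + 5 * n := by
  have hn' : (0 : ℝ) < n := by exact_mod_cast hn
  set T : Finset (ℕ × ℕ) := ((Icc 1 ⌊0.708 * (n : ℝ)⌋₊).sigma (fun j => Icc 1 j)).image
    (fun p => (p.1, p.2)) with hT
  have hTc : (T.card : ℝ) ≤ 0.250632 * n ^ 2 + n := by
    have h1 : T.card ≤ ∑ j ∈ Icc 1 ⌊0.708 * (n : ℝ)⌋₊, j := by
      refine card_image_le.trans ?_
      rw [card_sigma]
      apply le_of_eq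
      apply sum_congr rfl
      intro j _
      rw [Nat.card_Icc, Nat.add_sub_cancel]
    have h2 : ∀ M : ℕ, 2 * ∑ j ∈ Icc 1 M, j = M * (M + 1) := by
      intro M
      induction M with
      | zero => simp
      | succ M ih =>
        rw [Finset.sum_Icc_succ_top (by omega), mul_add, ih]
        ring
    have h3 := h2 ⌊0.708 * (n : ℝ)⌋₊
    have h4 : (⌊0.708 * (n : ℝ)⌋₊ : ℝ) ≤ 0.708 * n := Nat.floor_le (by positivity)
    have h5 : (2 : ℝ) * T.card ≤ (⌊0.708 * (n : ℝ)⌋₊ : ℝ) * ((⌊0.708 * (n : ℝ)⌋₊ : ℝ) + 1) := by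
      have h6 : 2 * T.card ≤ ⌊0.708 * (n : ℝ)⌋₊ * (⌊0.708 * (n : ℝ)⌋₊ + 1) := by
        rw [← h3]
        omega
      exact_mod_cast h6
    have h6 : (⌊0.708 * (n : ℝ)⌋₊ : ℝ) * ((⌊0.708 * (n : ℝ)⌋₊ : ℝ) + 1) ≤
        (0.708 * n) * (0.708 * n + 1) := by
      apply mul_le_mul h4 (by linarith) (by positivity) (by positivity)
    nlinarith
  have hsub : W ⊆ T ∪ (bx n 0.708 0.725 0.692 ∪ (bx n 0.725 0.75 0.5681 ∪
      (bx n 0.75 0.785 0.5021 ∪ (bx n 0.785 0.83 0.4456 ∪ (bx n 0.83 0.88 0.3966 ∪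
      (bx n 0.88 0.94 0.3572 ∪ bx n 0.94 1 0.3215)))))) := by
    rintro ⟨j, d⟩ hp
    obtain ⟨h1, h2, h3, h4⟩ := hW _ hp
    simp only at h1 h2 h3 h4
    have h3' : (j : ℝ) ≤ n := by exact_mod_cast h3
    simp only [mem_union]
    rcases le_or_gt (j : ℝ) (0.708 * n) with h5 | h5
    · left
      rw [hT, mem_image]
      refine ⟨⟨j, d⟩, ?_, rfl⟩
      rw [mem_sigma, mem_Icc, mem_Icc]
      exact ⟨⟨h1.trans h2, Nat.le_floor h5⟩, h1, h2⟩
    right
    rcases le_or_gt (j : ℝ) (0.725 * n) with h6 | h6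
    · left
      exact mem_bx hn h4 h5 h6 h2 h1 (by norm_num) (by norm_num) (by norm_num)
    right
    rcases le_or_gt (j : ℝ) (0.75 * n) with h7 | h7
    · left
      exact mem_bx hn h4 h6 h7 h2 h1 (by norm_num) (by norm_num) (by norm_num)
    right
    rcases le_or_gt (j : ℝ) (0.785 * n) with h8 | h8
    · left
      exact mem_bx hn h4 h7 h8 h2 h1 (by norm_num) (by norm_num) (by norm_num)
    right
    rcases le_or_gt (j : ℝ) (0.83 * n) with h9 | h9
    · left
      exact mem_bx hn h4 h8 h9 h2 h1 (by norm_num) (by norm_num) (by norm_num)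
    right
    rcases le_or_gt (j : ℝ) (0.88 * n) with h10 | h10
    · left
      exact mem_bx hn h4 h9 h10 h2 h1 (by norm_num) (by norm_num) (by norm_num)
    right
    rcases le_or_gt (j : ℝ) (0.94 * n) with h11 | h11
    · left
      exact mem_bx hn h4 h10 h11 h2 h1 (by norm_num) (by norm_num) (by norm_num)
    right
    exact mem_bx hn h4 h11 (by linarith) h2 h1 (by norm_num) (by norm_num) (by norm_num)
  have h1 := card_le_card hsub
  have u0 := card_union_le T (bx n 0.708 0.725 0.692 ∪ (bx n 0.725 0.75 0.5681 ∪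
      (bx n 0.75 0.785 0.5021 ∪ (bx n 0.785 0.83 0.4456 ∪ (bx n 0.83 0.88 0.3966 ∪
      (bx n 0.88 0.94 0.3572 ∪ bx n 0.94 1 0.3215))))))
  have u1 := card_union_le (bx n 0.708 0.725 0.692) (bx n 0.725 0.75 0.5681 ∪
      (bx n 0.75 0.785 0.5021 ∪ (bx n 0.785 0.83 0.4456 ∪ (bx n 0.83 0.88 0.3966 ∪
      (bx n 0.88 0.94 0.3572 ∪ bx n 0.94 1 0.3215)))))
  have u2 := card_union_le (bx n 0.725 0.75 0.5681)
      (bx n 0.75 0.785 0.5021 ∪ (bx n 0.785 0.83 0.4456 ∪ (bx n 0.83 0.88 0.3966 ∪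
      (bx n 0.88 0.94 0.3572 ∪ bx n 0.94 1 0.3215))))
  have u3 := card_union_le (bx n 0.75 0.785 0.5021) (bx n 0.785 0.83 0.4456 ∪
      (bx n 0.83 0.88 0.3966 ∪ (bx n 0.88 0.94 0.3572 ∪ bx n 0.94 1 0.3215)))
  have u4 := card_union_le (bx n 0.785 0.83 0.4456)
      (bx n 0.83 0.88 0.3966 ∪ (bx n 0.88 0.94 0.3572 ∪ bx n 0.94 1 0.3215))
  have u5 := card_union_le (bx n 0.83 0.88 0.3966) (bx n 0.88 0.94 0.3572 ∪ bx n 0.94 1 0.3215)
  have u6 := card_union_le (bx n 0.88 0.94 0.3572) (bx n 0.94 1 0.3215)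
  have h2 : W.card ≤ T.card + (bx n 0.708 0.725 0.692).card + (bx n 0.725 0.75 0.5681).card +
      (bx n 0.75 0.785 0.5021).card + (bx n 0.785 0.83 0.4456).card +
      (bx n 0.83 0.88 0.3966).card + (bx n 0.88 0.94 0.3572).card + (bx n 0.94 1 0.3215).card := by
    omega
  have h3 : (W.card : ℝ) ≤ T.card + (bx n 0.708 0.725 0.692).card +
      (bx n 0.725 0.75 0.5681).card +
      (bx n 0.75 0.785 0.5021).card + (bx n 0.785 0.83 0.4456).card +
      (bx n 0.83 0.88 0.3966).card + (bx n 0.88 0.94 0.3572).card + (bx n 0.94 1 0.3215).card := by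
    exact_mod_cast h2
  have v0 := bx_card n 0.708 0.725 0.692 (by norm_num) (by norm_num) (by norm_num)
  have v1 := bx_card n 0.725 0.75 0.5681 (by norm_num) (by norm_num) (by norm_num)
  have v2 := bx_card n 0.75 0.785 0.5021 (by norm_num) (by norm_num) (by norm_num)
  have v3 := bx_card n 0.785 0.83 0.4456 (by norm_num) (by norm_num) (by norm_num)
  have v4 := bx_card n 0.83 0.88 0.3966 (by norm_num) (by norm_num) (by norm_num)
  have v5 := bx_card n 0.88 0.94 0.3572 (by norm_num) (by norm_num) (by norm_num)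
  have v6 := bx_card n 0.94 1 0.3215 (by norm_num) (by norm_num) (by norm_num)
  nlinarith [sq_nonneg (n : ℝ)]

theorem covered (hm : IsMacMahon m) {z : ℕ} (hz : 1 ≤ z) :
    ∃ i j, 1 ≤ i ∧ i ≤ j ∧ z = ∑ k ∈ Icc i j, m k := by
  classical
  have hex : ∃ n, z < m (n + 1) := ⟨z, lt_of_lt_of_le (Nat.lt_succ_self z) (le_self hm (by omega))⟩
  obtain ⟨n, hn, hmin⟩ : ∃ n, z < m (n + 1) ∧ ∀ k < n, ¬ z < m (k + 1) :=
    ⟨Nat.find hex, Nat.find_spec hex, fun k hk => Nat.find_min hex hk⟩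
  have hn1 : 1 ≤ n := by
    by_contra h
    have : n = 0 := by omega
    subst this
    rw [zero_add, hm.one] at hn
    omega
  have hle : m n ≤ z := by
    have := hmin (n - 1) (by omega)
    rw [Nat.sub_add_cancel hn1] at this
    omega
  rcases hle.eq_or_lt with h | h
  · exact ⟨n, n, hn1, le_rfl, by simp [h]⟩
  · by_contra hcon
    push Not at hcon
    have : z ∈ {x : ℕ | m n < x ∧
        ∀ i j, 1 ≤ i → i < j → j ≤ n → x ≠ ∑ k ∈ Icc i j, m k} :=
      ⟨h, fun i j hi hij _ => hcon i j hi hij.le⟩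
    have := (hm.succ n hn1).2 this
    omega

/-- the sum of the `d` consecutive terms ending at `m j` -/
theorem sumlow (hm : IsMacMahon m) {n j : ℕ} (hj : j ≤ n) : ∀ d ≤ j,
    3 * (d : ℝ) * (2 * j + 1 - d) ≤ 4 * ((∑ k ∈ Icc (j + 1 - d) j, m k : ℕ) : ℝ) +
      2 * d * (5 * (Nat.log 2 n : ℝ) + 10) := by
  intro d
  induction d with
  | zero =>
    intro _
    simp
  | succ d ih =>
    intro hd
    have h1 : Icc (j + 1 - (d + 1)) j = insert (j - d) (Icc (j + 1 - d) j) := by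
      ext k
      simp only [mem_insert, mem_Icc]
      omega
    rw [h1, sum_insert (by simp only [mem_Icc]; omega)]
    have h2 := ih (by omega)
    have h3 := lower hm (n := j - d) (by omega)
    have h4 : Nat.log 2 (j - d) ≤ Nat.log 2 n := Nat.log_mono_right (by omega)
    have h5 : (3 : ℝ) * ((j : ℝ) - d) ≤ 2 * (m (j - d) : ℝ) + 5 * (Nat.log 2 n : ℝ) + 10 := by
      have h6 : 3 * (j - d) ≤ 2 * m (j - d) + 5 * Nat.log 2 n + 10 := by omega
      have h7 : (3 : ℝ) * ((j - d : ℕ) : ℝ) ≤ 2 * (m (j - d) : ℝ) + 5 * (Nat.log 2 n : ℝ) + 10 := by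
        exact_mod_cast h6
      rwa [Nat.cast_sub (by omega)] at h7
    push_cast at h2 ⊢
    nlinarith

theorem log_small {n : ℕ} (hn : 131072 ≤ n) : 1000 * (5 * Nat.log 2 n + 10) ≤ n := by
  have h1 : 17 ≤ Nat.log 2 n := by
    have : Nat.log 2 131072 = 17 := by
      rw [show 131072 = 2 ^ 17 by norm_num, Nat.log_pow (by norm_num)]
    rw [← this]
    exact Nat.log_mono_right hn
  have h2 : 2 ^ Nat.log 2 n ≤ n := Nat.pow_log_le_self 2 (by omega)
  have h3 : ∀ L : ℕ, 17 ≤ L → 1000 * (5 * L + 10) ≤ 2 ^ L := by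
    intro L hL
    induction L, hL using Nat.le_induction with
    | base => norm_num
    | succ L hL ih =>
      rw [pow_succ]
      omega
  exact (h3 _ h1).trans h2

/-- `m n ≤ (3/8) n ^ 2` for every `n ≥ 2 ^ 17` -/
theorem upper (hm : IsMacMahon m) {n : ℕ} (hn : 131072 ≤ n) : 8 * m n ≤ 3 * n ^ 2 := by
  by_contra hcon
  rw [not_le] at hcon
  -- X < m n, 8 X ≤ 3 n ^ 2 < 8 X + 8
  obtain ⟨X, hX1, hX2, hX3⟩ : ∃ X : ℕ, X < m n ∧ 8 * X ≤ 3 * n ^ 2 ∧ 3 * n ^ 2 < 8 * X + 8 :=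
    ⟨3 * n ^ 2 / 8, by omega, by omega, by omega⟩
  let f : ℕ × ℕ → ℕ := fun p => ∑ k ∈ Icc (p.1 + 1 - p.2) p.1, m k
  set W : Finset (ℕ × ℕ) := ((Icc 1 n) ×ˢ (Icc 1 n)).filter (fun p => p.2 ≤ p.1 ∧ f p ≤ X) with hW
  have hcov : Icc 1 X ⊆ W.image f := by
    intro z hz
    rw [mem_Icc] at hz
    obtain ⟨i, j, hi, hij, h⟩ := covered hm hz.1
    have hmj : m j ≤ z := by
      rw [h]
      exact single_le_sum (f := fun k => m k) (fun k _ => Nat.zero_le _) (mem_Icc.2 ⟨hij, le_rfl⟩)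
    have hjn : j ≤ n := by
      by_contra hc
      have := mono hm (a := n) (b := j) (by omega) (by omega)
      omega
    rw [mem_image]
    refine ⟨(j, j + 1 - i), ?_, ?_⟩
    · rw [hW, mem_filter, mem_product, mem_Icc, mem_Icc]
      simp only [f]
      have h1 : j + 1 - (j + 1 - i) = i := by omega
      rw [h1, ← h]
      exact ⟨⟨⟨by omega, hjn⟩, by omega, by omega⟩, by omega, hz.2⟩
    · simp only [f]
      have h1 : j + 1 - (j + 1 - i) = i := by omega
      rw [h1, ← h]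
  have hXW : X ≤ W.card := by
    have h1 := card_le_card hcov
    rw [Nat.card_Icc, Nat.add_sub_cancel] at h1
    exact h1.trans card_image_le
  have hlog : (1000 : ℝ) * (5 * (Nat.log 2 n : ℝ) + 10) ≤ n := by exact_mod_cast log_small hn
  have hnr : (131072 : ℝ) ≤ n := by exact_mod_cast hn
  have hpairs := pairs n (by omega) W (by
    rintro ⟨j, d⟩ hp
    rw [hW, mem_filter, mem_product, mem_Icc, mem_Icc] at hp
    obtain ⟨⟨⟨h1, h2⟩, h3, h4⟩, h5, h6⟩ := hp
    simp only at h1 h2 h3 h4 h5 ⊢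
    refine ⟨h3, h5, h2, ?_⟩
    have h7 := sumlow hm h2 d h5
    have h8 : ((∑ k ∈ Icc (j + 1 - d) j, m k : ℕ) : ℝ) ≤ X := by exact_mod_cast h6
    have h9 : (8 : ℝ) * X ≤ 3 * (n : ℝ) ^ 2 := by exact_mod_cast hX2
    have h10 : (d : ℝ) ≤ n := by exact_mod_cast h4
    have h11 : (0 : ℝ) ≤ d := Nat.cast_nonneg d
    have h12 : (d : ℝ) * (5 * (Nat.log 2 n : ℝ) + 10) ≤ n * (n / 1000) := by
      apply mul_le_mul h10 (by linarith) (by positivity) (by linarith)
    nlinarith)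
  have h1 : (X : ℝ) ≤ W.card := by exact_mod_cast hXW
  have h2 : (3 : ℝ) * (n : ℝ) ^ 2 < 8 * X + 8 := by exact_mod_cast hX3
  nlinarith

/-- **Upper bound for every term from `n = 2 ^ 17` on.** -/
theorem result {m : ℕ → ℕ} (hm : IsMacMahon m) (n : ℕ) (hn : 131072 ≤ n) : 8 * m n ≤ 3 * n ^ 2 :=
  upper hm hn

end Pool.Agent.Results.MP_bfbd7b_nt.QuadraticBound
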