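import Mathlib

/-!
# MacMahon's primes of measurement: the lower density is less than `2/3`
-/

set_option autoImplicit false

namespace Pool.Agent.Results.MP_bfbd7b_nt.StrictDensity

open Finset

/-- `m 1 < m 2 < ⋯` are MacMahon's primes of measurement: `m 1 = 1`, and `m (n + 1)` is the least
`x > m n` which is not a sum `m i + ⋯ + m j` with `1 ≤ i < j ≤ n`. (The value `m 0` is not used.) -/
structure IsMacMahon (m : ℕ → ℕ) : Prop where
  one : m 1 = 1
  succ : ∀ n, 1 ≤ n → IsLeast {x : ℕ | m n < x ∧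
    ∀ i j, 1 ≤ i → i < j → j ≤ n → x ≠ ∑ k ∈ Icc i j, m k} (m (n + 1))

variable {m : ℕ → ℕ}

theorem lt_succ (hm : IsMacMahon m) {n : ℕ} (hn : 1 ≤ n) : m n < m (n + 1) :=
  (hm.succ n hn).1.1

theorem mono (hm : IsMacMahon m) {a b : ℕ} (ha : 1 ≤ a) (hab : a ≤ b) : m a + (b - a) ≤ m b := by
  induction b, hab using Nat.le_induction with
  | base => simp
  | succ b hb ih =>
    have := lt_succ hm (le_trans ha hb)
    omega

theorem le_self (hm : IsMacMahon m) {n : ℕ} (hn : 1 ≤ n) : n ≤ m n := by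
  have := mono hm le_rfl hn
  have h1 := hm.one
  omega

/-- the indices of the terms `≤ x` -/
def idx (m : ℕ → ℕ) (x : ℕ) : Finset ℕ := (Icc 1 x).filter (fun n => m n ≤ x)

/-- the number of terms `≤ x` -/
def cnt (m : ℕ → ℕ) (x : ℕ) : ℕ := (idx m x).card

theorem mem_idx (hm : IsMacMahon m) {x n : ℕ} : n ∈ idx m x ↔ 1 ≤ n ∧ m n ≤ x := by
  unfold idx
  rw [mem_filter, mem_Icc]
  constructor
  · exact fun h => ⟨h.1.1, h.2⟩
  · rintro ⟨h1, h2⟩
    exact ⟨⟨h1, (le_self hm h1).trans h2⟩, h2⟩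

/-- a sum of two consecutive terms is not a term -/
theorem two_ne (hm : IsMacMahon m) {i n : ℕ} (hi : 1 ≤ i) (hn : 1 ≤ n) :
    m i + m (i + 1) ≠ m n := by
  intro h
  have h1 : i + 1 < n := by
    by_contra hcon
    have := mono hm hn (b := i + 1) (by omega)
    have h2 := le_self hm hi
    omega
  have h2 := (hm.succ (n - 1) (by omega)).1.2 i (i + 1) hi (by omega) (by omega)
  rw [Nat.sub_add_cancel hn] at h2
  apply h2
  rw [← h]
  rw [Finset.sum_Icc_succ_top (by omega)]
  simp

theorem step (hm : IsMacMahon m) (y : ℕ) : cnt m (2 * y) ≤ y + 1 + cnt m (y / 2) := by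
  -- terms in (y, 2y] and sums of two consecutive terms in (y/2, y]
  set S := (idx m (2 * y)) \ (idx m y) with hS
  set T := (idx m y) \ (idx m (y / 2)) with hT
  have hsub1 : idx m y ⊆ idx m (2 * y) := fun n hn => by
    rw [mem_idx hm] at hn ⊢
    exact ⟨hn.1, by omega⟩
  have hsub2 : idx m (y / 2) ⊆ idx m y := fun n hn => by
    rw [mem_idx hm] at hn ⊢
    exact ⟨hn.1, by omega⟩
  have hSc : S.card + (idx m y).card = (idx m (2 * y)).card := card_sdiff_add_card_eq_card hsub1
  have hTc : T.card + (idx m (y / 2)).card = (idx m y).card := card_sdiff_add_card_eq_card hsub2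
  -- T' : those with successor ≤ y
  set T' := T.filter (fun n => m (n + 1) ≤ y) with hT'
  have hT1 : T.card ≤ T'.card + 1 := by
    have h1 : (T.filter (fun n => ¬ m (n + 1) ≤ y)).card ≤ 1 := by
      rw [card_le_one]
      intro a ha b hb
      rw [mem_filter, hT, mem_sdiff, mem_idx hm] at ha hb
      by_contra hne
      rcases lt_or_gt_of_ne hne with h | h
      · have := mono hm (a := a + 1) (b := b) (by omega) (by omega)
        omega
      · have := mono hm (a := b + 1) (b := a) (by omega) (by omega)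
        omega
    have h2 : (T.filter (fun n => m (n + 1) ≤ y)).card + (T.filter (fun n => ¬ m (n + 1) ≤ y)).card
        = T.card := card_filter_add_card_filter_not _
    rw [hT']
    omega
  have hinjm : Set.InjOn m (S : Set ℕ) := by
    intro a ha b hb hab
    rw [mem_coe, hS, mem_sdiff, mem_idx hm] at ha hb
    by_contra hne
    rcases lt_or_gt_of_ne hne with h | h
    · have := mono hm (a := a) (b := b) (by omega) (by omega)
      omega
    · have := mono hm (a := b) (b := a) (by omega) (by omega)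
      omega
  have hinj2 : Set.InjOn (fun n => m n + m (n + 1)) (T' : Set ℕ) := by
    intro a ha b hb hab
    rw [mem_coe, hT', mem_filter, hT, mem_sdiff, mem_idx hm] at ha hb
    simp only at hab
    by_contra hne
    rcases lt_or_gt_of_ne hne with h | h
    · have h1 := mono hm (a := a) (b := b) (by omega) (by omega)
      have h2 := mono hm (a := a + 1) (b := b + 1) (by omega) (by omega)
      omega
    · have h1 := mono hm (a := b) (b := a) (by omega) (by omega)
      have h2 := mono hm (a := b + 1) (b := a + 1) (by omega) (by omega)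
      omega
  have hdisj : Disjoint (S.image m) (T'.image (fun n => m n + m (n + 1))) := by
    rw [disjoint_left]
    intro z hz1 hz2
    rw [mem_image] at hz1 hz2
    obtain ⟨a, ha, rfl⟩ := hz1
    obtain ⟨b, hb, hab⟩ := hz2
    rw [hS, mem_sdiff, mem_idx hm] at ha
    rw [hT', mem_filter, hT, mem_sdiff, mem_idx hm] at hb
    exact two_ne hm hb.1.1.1 ha.1.1 hab
  have hsubI : (S.image m) ∪ (T'.image (fun n => m n + m (n + 1))) ⊆ Ioc y (2 * y) := by
    intro z hz
    rw [mem_union, mem_image, mem_image] at hz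
    rw [mem_Ioc]
    rcases hz with ⟨a, ha, rfl⟩ | ⟨b, hb, rfl⟩
    · rw [hS, mem_sdiff, mem_idx hm, mem_idx hm] at ha
      have h1 : ¬ m a ≤ y := fun h => ha.2 ⟨ha.1.1, h⟩
      omega
    · rw [hT', mem_filter, hT, mem_sdiff, mem_idx hm, mem_idx hm] at hb
      have h1 : ¬ m b ≤ y / 2 := fun h => hb.1.2 ⟨hb.1.1.1, h⟩
      have h2 := lt_succ hm hb.1.1.1
      omega
  have hcard := card_le_card hsubI
  rw [card_union_of_disjoint hdisj, card_image_of_injOn hinjm, card_image_of_injOn hinj2,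
    Nat.card_Ioc] at hcard
  unfold cnt
  omega

theorem cnt_mono (hm : IsMacMahon m) {x y : ℕ} (h : x ≤ y) : cnt m x ≤ cnt m y := by
  apply card_le_card
  intro n hn
  rw [mem_idx hm] at hn ⊢
  exact ⟨hn.1, hn.2.trans h⟩

/-- the upper density is at most `2/3` -/
theorem cnt_le (hm : IsMacMahon m) : ∀ x : ℕ, 3 * cnt m x ≤ 2 * x + 5 * Nat.log 2 x + 5 := by
  intro x
  induction x using Nat.strong_induction_on with
  | _ x ih =>
    rcases Nat.eq_zero_or_pos x with rfl | hx
    · have : cnt m 0 = 0 := by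
        unfold cnt idx
        simp
      omega
    · have h1 := step hm ((x + 1) / 2)
      have h2 := cnt_mono hm (x := x) (y := 2 * ((x + 1) / 2)) (by omega)
      rcases Nat.eq_zero_or_pos ((x + 1) / 2 / 2) with h0 | h0
      · rw [h0] at h1
        have : cnt m 0 = 0 := by
          unfold cnt idx
          simp
        omega
      · have h3 := ih ((x + 1) / 2 / 2) (by omega)
        have h4 : Nat.log 2 ((x + 1) / 2 / 2) + 1 ≤ Nat.log 2 x := by
          rw [← Nat.log_mul_base (by norm_num) (by omega)]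
          apply Nat.log_mono_right
          omega
        omega

theorem cnt_self (hm : IsMacMahon m) {n : ℕ} (hn : 1 ≤ n) : cnt m (m n) = n := by
  unfold cnt
  have : idx m (m n) = Icc 1 n := by
    ext k
    rw [mem_idx hm, mem_Icc]
    constructor
    · rintro ⟨h1, h2⟩
      refine ⟨h1, ?_⟩
      by_contra h
      have := mono hm hn (b := k) (by omega)
      omega
    · rintro ⟨h1, h2⟩
      refine ⟨h1, ?_⟩
      have := mono hm h1 h2
      omega
  rw [this, Nat.card_Icc]
  omega

/-- `m n ≥ (3/2) n - O(log n)` for every `n` -/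
theorem lower (hm : IsMacMahon m) {n : ℕ} (hn : 1 ≤ n) :
    3 * n ≤ 2 * m n + 5 * Nat.log 2 n + 10 := by
  have h1 := cnt_le hm (m n)
  rw [cnt_self hm hn] at h1
  rcases le_or_gt (2 * n) (m n) with h | h
  · omega
  · have h2 : Nat.log 2 (m n) ≤ Nat.log 2 n + 1 := by
      rw [← Nat.log_mul_base (by norm_num) (by omega)]
      apply Nat.log_mono_right
      omega
    omega

theorem log_small {n : ℕ} (hn : 131072 ≤ n) : 1000 * (5 * Nat.log 2 n + 10) ≤ n := by
  have h1 : 17 ≤ Nat.log 2 n := by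
    have : Nat.log 2 131072 = 17 := by
      rw [show 131072 = 2 ^ 17 by norm_num, Nat.log_pow (by norm_num)]
    rw [← this]
    exact Nat.log_mono_right hn
  have h2 : 2 ^ Nat.log 2 n ≤ n := Nat.pow_log_le_self 2 (by omega)
  have h3 : ∀ L : ℕ, 17 ≤ L → 1000 * (5 * L + 10) ≤ 2 ^ L := by
    intro L hL
    induction L, hL using Nat.le_induction with
    | base => norm_num
    | succ L hL ih =>
      rw [pow_succ]
      omega
  exact (h3 _ h1).trans h2

theorem le_cnt (hm : IsMacMahon m) {n x : ℕ} (hn : 1 ≤ n) : n ≤ cnt m x ↔ m n ≤ x := by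
  constructor
  · intro h
    by_contra hcon
    have h1 : idx m x ⊆ Icc 1 (n - 1) := by
      intro k hk
      rw [mem_idx hm] at hk
      rw [mem_Icc]
      refine ⟨hk.1, ?_⟩
      by_contra h2
      have := mono hm hn (b := k) (by omega)
      omega
    have h2 := card_le_card h1
    rw [Nat.card_Icc] at h2
    unfold cnt at h
    omega
  · intro h
    have h1 : Icc 1 n ⊆ idx m x := by
      intro k hk
      rw [mem_Icc] at hk
      rw [mem_idx hm]
      have := mono hm hk.1 hk.2
      exact ⟨hk.1, by omega⟩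
    have h2 := card_le_card h1
    rw [Nat.card_Icc] at h2
    unfold cnt
    omega

/-- `z` is a term -/
def IsT (m : ℕ → ℕ) (z : ℕ) : Prop := ∃ n, 1 ≤ n ∧ m n = z

/-- `z` is a sum of two neighbouring terms -/
def IsS (m : ℕ → ℕ) (z : ℕ) : Prop := ∃ i, 1 ≤ i ∧ m i + m (i + 1) = z

/-- the other numbers -/
def IsB (m : ℕ → ℕ) (z : ℕ) : Prop := ¬ IsT m z ∧ ¬ IsS m z

theorem S_not_T (hm : IsMacMahon m) {z : ℕ} (h : IsS m z) : ¬ IsT m z := by
  rintro ⟨n, hn, h1⟩
  obtain ⟨i, hi, h2⟩ := h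
  exact two_ne hm hi hn (h2.trans h1.symm)

theorem S_adj (hm : IsMacMahon m) {z : ℕ} (h : IsS m z) (h' : IsS m (z + 1)) : False := by
  obtain ⟨i, hi, h1⟩ := h
  obtain ⟨j, hj, h2⟩ := h'
  rcases le_or_gt j i with h3 | h3
  · have h4 := mono hm hj h3
    have h5 := mono hm (a := j + 1) (b := i + 1) (by omega) (by omega)
    omega
  · have h4 := mono hm (a := i) (b := j) hi (by omega)
    have h5 := mono hm (a := i + 1) (b := j + 1) (by omega) (by omega)
    omega

/-- no term lies strictly between two neighbours -/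
theorem between (hm : IsMacMahon m) {i t : ℕ} (hi : 1 ≤ i) (h1 : m i < t) (h2 : t < m (i + 1)) :
    ¬ IsT m t := by
  rintro ⟨n, hn, rfl⟩
  rcases le_or_gt n i with h3 | h3
  · have := mono hm hn h3
    omega
  · have := mono hm (a := i + 1) (b := n) (by omega) (by omega)
    omega

theorem T_two (hm : IsMacMahon m) {t : ℕ} (ht : IsT m t) : ¬ IsS m (2 * t) := by
  rintro ⟨i, hi, h⟩
  have h1 := lt_succ hm hi
  exact between hm hi (by omega) (by omega) ht

theorem T_right (hm : IsMacMahon m) {t : ℕ} (ht : IsT m t) (h : IsS m (2 * t + 1)) :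
    IsT m (t + 1) := by
  obtain ⟨i, hi, h2⟩ := h
  have h1 := lt_succ hm hi
  rcases Nat.lt_or_ge (m i) t with h3 | h3
  · exact absurd ht (between hm hi h3 (by omega))
  · exact ⟨i + 1, by omega, by omega⟩

theorem T_left (hm : IsMacMahon m) {t : ℕ} (ht : IsT m (t + 1)) (h : IsS m (2 * t + 1)) :
    IsT m t := by
  obtain ⟨i, hi, h2⟩ := h
  have h1 := lt_succ hm hi
  rcases Nat.lt_or_ge (t + 1) (m (i + 1)) with h3 | h3
  · exact absurd ht (between hm hi (by omega) h3)
  · exact ⟨i, hi, by omega⟩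

/-- the neighbour of a term -/
theorem next (hm : IsMacMahon m) {n b : ℕ} (hn : 1 ≤ n) (h1 : m n < b) (hb : IsT m b)
    (h2 : ∀ c, m n < c → c < b → ¬ IsT m c) : m (n + 1) = b := by
  have h3 := lt_succ hm hn
  obtain ⟨k, hk, rfl⟩ := hb
  have h4 : n < k := by
    by_contra h
    have := mono hm hk (b := n) (by omega)
    omega
  have h5 := mono hm (a := n + 1) (b := k) (by omega) (by omega)
  rcases Nat.lt_or_ge (m (n + 1)) (m k) with h6 | h6
  · exact absurd ⟨n + 1, by omega, rfl⟩ (h2 _ h3 h6)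
  · omega

theorem gap_two (hm : IsMacMahon m) {a : ℕ} (h0 : IsT m a) (h1 : ¬ IsT m (a + 1))
    (h2 : IsT m (a + 2)) : ¬ IsT m (2 * a + 2) := by
  obtain ⟨n, hn, rfl⟩ := h0
  have h3 := next hm hn (b := m n + 2) (by omega) h2 (by
    intro c hc1 hc2
    have : c = m n + 1 := by omega
    rw [this]
    exact h1)
  exact S_not_T hm ⟨n, hn, by omega⟩

/-- `b, b + 1, b + 3` are neighbouring terms -/
def PP (m : ℕ → ℕ) (b : ℕ) : Prop := IsT m b ∧ IsT m (b + 1) ∧ ¬ IsT m (b + 2) ∧ IsT m (b + 3)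

/-- `a, a + 2` are neighbouring terms -/
def FF (m : ℕ → ℕ) (a : ℕ) : Prop := IsT m a ∧ ¬ IsT m (a + 1) ∧ IsT m (a + 2)

theorem PP_three (hm : IsMacMahon m) {b : ℕ} (h : PP m b) : ¬ IsT m (3 * b + 4) := by
  obtain ⟨⟨n, hn, rfl⟩, h1, h2, h3⟩ := h
  have e1 := next hm hn (b := m n + 1) (by omega) h1 (by intro c hc1 hc2; omega)
  have e2 := next hm (n := n + 1) (by omega) (b := m n + 3) (by omega) h3 (by
    intro c hc1 hc2
    have : c = m n + 2 := by omega
    rw [this]
    exact h2)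
  rintro ⟨k, hk, h4⟩
  have h5 : n + 2 < k := by
    by_contra hcon
    have := mono hm hk (b := n + 2) (by omega)
    have e3 : m (n + 2) = m n + 3 := e2
    have := le_self hm hn
    omega
  have h6 := (hm.succ (k - 1) (by omega)).1.2 n (n + 2) hn (by omega) (by omega)
  rw [Nat.sub_add_cancel hk] at h6
  apply h6
  rw [h4, Finset.sum_Icc_succ_top (by omega), Finset.sum_Icc_succ_top (by omega)]
  have e3 : m (n + 1 + 1) = m n + 3 := e2
  simp only [Icc_self, sum_singleton]
  omega

theorem FF_cases (hm : IsMacMahon m) {a : ℕ} (h : FF m a) :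
    (IsB m (2 * a) ∨ IsB m (2 * a + 1) ∨ IsB m (2 * a + 3)) ∨ PP m (2 * a) := by
  obtain ⟨h0, h1, h2⟩ := h
  by_cases t0 : IsT m (2 * a)
  · by_cases t1 : IsT m (2 * a + 1)
    · by_cases t3 : IsT m (2 * a + 3)
      · exact Or.inr ⟨t0, t1, gap_two hm h0 h1 h2, t3⟩
      · exact Or.inl (Or.inr (Or.inr ⟨t3, fun hs => h1 (T_left hm (t := a + 1) h2 hs)⟩))
    · exact Or.inl (Or.inr (Or.inl ⟨t1, fun hs => h1 (T_right hm h0 hs)⟩))
  · exact Or.inl (Or.inl ⟨t0, T_two hm h0⟩)

theorem PP_cases (hm : IsMacMahon m) {b : ℕ} (h : PP m b) :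
    (IsB m (2 * (b + 1)) ∨ IsB m (2 * (b + 1) + 1) ∨ IsB m (2 * (b + 1) + 3)) ∨
    (IsB m (3 * b + 4) ∨ IsB m (3 * b + 5)) ∨ IsB m (6 * b + 10) := by
  have h3 := PP_three hm h
  obtain ⟨h0, h1, h2, h4⟩ := h
  rcases FF_cases hm (a := b + 1) ⟨h1, h2, h4⟩ with h5 | h5
  · exact Or.inl h5
  · right
    have h6 := PP_three hm h5
    by_cases t : IsT m (3 * b + 5)
    · right
      refine ⟨?_, ?_⟩
      · have e : 3 * (2 * (b + 1)) + 4 = 6 * b + 10 := by ring
        rwa [e] at h6
      · have e : 6 * b + 10 = 2 * (3 * b + 5) := by ring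
        rw [e]
        exact T_two hm t
    · left
      by_cases s : IsS m (3 * b + 4)
      · exact Or.inr ⟨t, fun hs => S_adj hm s hs⟩
      · exact Or.inl ⟨h3, s⟩

open Classical in
/-- the number of `z ≤ y` with the property `Q` -/
noncomputable def ct (Q : ℕ → Prop) (y : ℕ) : ℕ := ((range (y + 1)).filter Q).card

theorem ct_inj (Q Q' : ℕ → Prop) (y y' : ℕ) (f : ℕ → ℕ) (hf : ∀ a, a ≤ y → Q a → Q' (f a) ∧ f a ≤ y')
    (hinj : ∀ a b, Q a → Q b → f a = f b → a = b) : ct Q y ≤ ct Q' y' := by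
  classical
  unfold ct
  refine card_le_card_of_injOn f ?_ ?_
  · intro a ha
    have ha' := mem_filter.1 (mem_coe.1 ha)
    have h1 := hf a (by have := mem_range.1 ha'.1; omega) ha'.2
    rw [mem_coe, mem_filter, mem_range]
    exact ⟨by omega, h1.1⟩
  · intro a ha b hb hab
    exact hinj a b (mem_filter.1 (mem_coe.1 ha)).2 (mem_filter.1 (mem_coe.1 hb)).2 hab

theorem ct_or (Q Q' Q'' : ℕ → Prop) (y : ℕ) (h : ∀ a, a ≤ y → Q a → Q' a ∨ Q'' a) :
    ct Q y ≤ ct Q' y + ct Q'' y := by
  classical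
  unfold ct
  rw [← card_union_add_card_inter]
  refine le_trans (card_le_card ?_) (Nat.le_add_right _ _)
  intro a ha
  rw [mem_filter, mem_range] at ha
  rw [mem_union, mem_filter, mem_filter, mem_range]
  rcases h a (by omega) ha.2 with h1 | h1
  · exact Or.inl ⟨ha.1, h1⟩
  · exact Or.inr ⟨ha.1, h1⟩

theorem ct_BF (y : ℕ) : ct (fun a => FF m a ∧
    (IsB m (2 * a) ∨ IsB m (2 * a + 1) ∨ IsB m (2 * a + 3))) y ≤ ct (IsB m) (2 * y + 3) := by
  classical
  refine ct_inj _ _ _ _ (fun a => if IsB m (2 * a) then 2 * a else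
    if IsB m (2 * a + 1) then 2 * a + 1 else 2 * a + 3) ?_ ?_
  · rintro a ha ⟨-, h⟩
    try simp only
    split_ifs with h1 h2
    · exact ⟨h1, by omega⟩
    · exact ⟨h2, by omega⟩
    · rcases h with h | h | h
      · exact absurd h h1
      · exact absurd h h2
      · exact ⟨h, by omega⟩
  · rintro a b ⟨ha, -⟩ ⟨hb, -⟩ hab
    try simp only at hab
    have k1 : a ≠ b + 1 := by
      rintro rfl
      exact hb.2.1 ha.1
    have k2 : b ≠ a + 1 := by
      rintro rfl
      exact ha.2.1 hb.1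
    split_ifs at hab <;> omega

theorem ct_FF (hm : IsMacMahon m) (y : ℕ) : ct (FF m) y ≤ ct (PP m) (2 * y) + ct (IsB m) (2 * y + 3) := by
  have h1 := ct_or (FF m) (fun a => FF m a ∧
    (IsB m (2 * a) ∨ IsB m (2 * a + 1) ∨ IsB m (2 * a + 3))) (fun a => PP m (2 * a)) y (by
      intro a _ ha
      rcases FF_cases hm ha with h | h
      · exact Or.inl ⟨ha, h⟩
      · exact Or.inr h)
  have h2 := ct_BF (m := m) y
  have h3 : ct (fun a => PP m (2 * a)) y ≤ ct (PP m) (2 * y) :=
    ct_inj _ _ _ _ (fun a => 2 * a) (fun a ha h => ⟨h, by omega⟩) (fun a b _ _ h => by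
      try simp only at h
      omega)
  omega

theorem ct_PP (hm : IsMacMahon m) (y : ℕ) : ct (PP m) y ≤
    ct (IsB m) (2 * y + 5) + ct (IsB m) (3 * y + 5) + ct (IsB m) (6 * y + 10) := by
  classical
  have h1 := ct_or (PP m) (fun b => FF m (b + 1) ∧
    (IsB m (2 * (b + 1)) ∨ IsB m (2 * (b + 1) + 1) ∨ IsB m (2 * (b + 1) + 3)))
    (fun b => (IsB m (3 * b + 4) ∨ IsB m (3 * b + 5)) ∨ IsB m (6 * b + 10)) y (by
      intro b _ hb
      rcases PP_cases hm hb with h | h
      · exact Or.inl ⟨⟨hb.2.1, hb.2.2.1, hb.2.2.2⟩, h⟩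
      · exact Or.inr h)
  have h2 := ct_or (fun b => (IsB m (3 * b + 4) ∨ IsB m (3 * b + 5)) ∨ IsB m (6 * b + 10))
    (fun b => IsB m (3 * b + 4) ∨ IsB m (3 * b + 5)) (fun b => IsB m (6 * b + 10)) y
    (fun b _ h => h)
  have h3 : ct (fun b => FF m (b + 1) ∧
      (IsB m (2 * (b + 1)) ∨ IsB m (2 * (b + 1) + 1) ∨ IsB m (2 * (b + 1) + 3))) y ≤
      ct (fun a => FF m a ∧
        (IsB m (2 * a) ∨ IsB m (2 * a + 1) ∨ IsB m (2 * a + 3))) (y + 1) :=
    ct_inj _ _ _ _ (fun b => b + 1) (fun b hb h => ⟨h, by omega⟩) (fun a b _ _ h => by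
      try simp only at h
      omega)
  have h4 := ct_BF (m := m) (y + 1)
  have h5 : ct (fun b => IsB m (3 * b + 4) ∨ IsB m (3 * b + 5)) y ≤ ct (IsB m) (3 * y + 5) := by
    refine ct_inj _ _ _ _ (fun b => if IsB m (3 * b + 4) then 3 * b + 4 else 3 * b + 5) ?_ ?_
    · intro b hb h
      try simp only
      split_ifs with h1
      · exact ⟨h1, by omega⟩
      · rcases h with h | h
        · exact absurd h h1
        · exact ⟨h, by omega⟩
    · intro a b _ _ hab
      try simp only at hab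
      split_ifs at hab <;> omega
  have h6 : ct (fun b => IsB m (6 * b + 10)) y ≤ ct (IsB m) (6 * y + 10) :=
    ct_inj _ _ _ _ (fun b => 6 * b + 10) (fun b hb h => ⟨h, by omega⟩) (fun a b _ _ h => by
      try simp only at h
      omega)
  have e : 2 * (y + 1) + 3 = 2 * y + 5 := by ring
  rw [e] at h4
  omega

/-- the non-terms -/
theorem ct_N (hm : IsMacMahon m) (y : ℕ) : ct (fun c => 1 ≤ c ∧ ¬ IsT m c) y ≤
    3 * ct (IsB m) (y + 1) + ct (FF m) y := by
  have h1 := ct_or (fun c => 1 ≤ c ∧ ¬ IsT m c)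
    (fun c => 1 ≤ c ∧ (IsB m c ∨ IsB m (c + 1)))
    (fun c => 1 ≤ c ∧ (IsB m (c - 1) ∨ FF m (c - 1))) y (by
      rintro c _ ⟨hc, hT⟩
      by_cases hS : IsS m c
      · by_cases hT1 : IsT m (c + 1)
        · by_cases hT2 : IsT m (c - 1)
          · right
            refine ⟨hc, Or.inr ⟨hT2, ?_, ?_⟩⟩
            · rwa [Nat.sub_add_cancel hc]
            · have : c - 1 + 2 = c + 1 := by omega
              rwa [this]
          · right
            refine ⟨hc, Or.inl ⟨hT2, fun hs => ?_⟩⟩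
            rw [← Nat.sub_add_cancel hc] at hS
            exact S_adj hm hs hS
        · left
          exact ⟨hc, Or.inr ⟨hT1, fun hs => S_adj hm hS hs⟩⟩
      · left
        exact ⟨hc, Or.inl ⟨hT, hS⟩⟩)
  have h2 := ct_or (fun c => 1 ≤ c ∧ (IsB m c ∨ IsB m (c + 1))) (IsB m) (fun c => IsB m (c + 1)) y
    (fun c _ h => h.2)
  have h3 := ct_or (fun c => 1 ≤ c ∧ (IsB m (c - 1) ∨ FF m (c - 1)))
    (fun c => 1 ≤ c ∧ IsB m (c - 1)) (fun c => 1 ≤ c ∧ FF m (c - 1)) y (by
      rintro c _ ⟨hc, h | h⟩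
      · exact Or.inl ⟨hc, h⟩
      · exact Or.inr ⟨hc, h⟩)
  have h4 : ct (IsB m) y ≤ ct (IsB m) (y + 1) :=
    ct_inj _ _ _ _ (fun c => c) (fun c hc h => ⟨h, by omega⟩) (fun a b _ _ h => h)
  have h5 : ct (fun c => IsB m (c + 1)) y ≤ ct (IsB m) (y + 1) :=
    ct_inj _ _ _ _ (fun c => c + 1) (fun c hc h => ⟨h, by omega⟩) (fun a b _ _ h => by
      try simp only at h
      omega)
  have h6 : ct (fun c => 1 ≤ c ∧ IsB m (c - 1)) y ≤ ct (IsB m) (y + 1) :=
    ct_inj _ _ _ _ (fun c => c - 1) (fun c hc h => ⟨h.2, by omega⟩) (fun a b ha hb h => by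
      try simp only at h
      have := ha.1
      have := hb.1
      omega)
  have h7 : ct (fun c => 1 ≤ c ∧ FF m (c - 1)) y ≤ ct (FF m) y :=
    ct_inj _ _ _ _ (fun c => c - 1) (fun c hc h => ⟨h.2, by omega⟩) (fun a b ha hb h => by
      try simp only at h
      have := ha.1
      have := hb.1
      omega)
  omega

/-- the number of terms `≤ x` -/
theorem ct_T (hm : IsMacMahon m) (x : ℕ) : ct (IsT m) x = cnt m x := by
  classical
  unfold ct cnt
  have h1 : (range (x + 1)).filter (IsT m) = (idx m x).image m := by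
    ext z
    rw [mem_filter, mem_range, mem_image]
    constructor
    · rintro ⟨hz, n, hn, rfl⟩
      exact ⟨n, (mem_idx hm).2 ⟨hn, by omega⟩, rfl⟩
    · rintro ⟨n, hn, rfl⟩
      rw [mem_idx hm] at hn
      exact ⟨by omega, n, hn.1, rfl⟩
  have h2 : ((range (x + 1)).filter (IsT m)).card = (idx m x).card := by
    rw [h1]
    refine card_image_of_injOn ?_
    intro a ha b hb hab
    rw [mem_coe, mem_idx hm] at ha hb
    by_contra hne
    rcases lt_or_gt_of_ne hne with h | h
    · have := mono hm (a := a) (b := b) (by omega) (by omega)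
      omega
    · have := mono hm (a := b) (b := a) (by omega) (by omega)
      omega
  convert h2 using 2

theorem ct_S (hm : IsMacMahon m) (x : ℕ) : cnt m (x / 2) ≤ ct (IsS m) x + 1 := by
  classical
  unfold ct
  have h1 : (Icc 1 (cnt m (x / 2) - 1)).card ≤ ((range (x + 1)).filter (IsS m)).card := by
    refine card_le_card_of_injOn (fun i => m i + m (i + 1)) ?_ ?_
    · intro i hi
      have hi' := mem_Icc.1 (mem_coe.1 hi)
      have h2 := (le_cnt hm (n := i + 1) (x := x / 2) (by omega)).1 (by omega)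
      have h3 := lt_succ hm hi'.1
      rw [mem_coe, mem_filter, mem_range]
      refine ⟨?_, i, hi'.1, rfl⟩
      change m i + m (i + 1) < x + 1
      omega
    · intro a ha b hb hab
      have ha' := mem_Icc.1 (mem_coe.1 ha)
      have hb' := mem_Icc.1 (mem_coe.1 hb)
      try simp only at hab
      by_contra hne
      rcases lt_or_gt_of_ne hne with h | h
      · have h1 := mono hm (a := a) (b := b) (by omega) (by omega)
        have h2 := mono hm (a := a + 1) (b := b + 1) (by omega) (by omega)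
        omega
      · have h1 := mono hm (a := b) (b := a) (by omega) (by omega)
        have h2 := mono hm (a := b + 1) (b := a + 1) (by omega) (by omega)
        omega
  rw [Nat.card_Icc] at h1
  omega

theorem ct_all (hm : IsMacMahon m) (x : ℕ) :
    ct (IsB m) x + ct (IsS m) x + ct (IsT m) x ≤ x + 1 := by
  classical
  unfold ct
  rw [← card_union_of_disjoint, ← card_union_of_disjoint]
  · refine (card_le_card (t := range (x + 1)) ?_).trans (by rw [card_range])
    intro z hz
    simp only [mem_union, mem_filter] at hz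
    rcases hz with (h | h) | h <;> exact h.1
  · rw [disjoint_left]
    intro z hz hz'
    simp only [mem_union, mem_filter] at hz hz'
    rcases hz with h | h
    · exact h.2.1 hz'.2
    · exact S_not_T hm h.2 hz'.2
  · rw [disjoint_left]
    intro z hz hz'
    rw [mem_filter] at hz hz'
    exact hz.2.2 hz'.2

theorem ct_ge (Q : ℕ → Prop) (x : ℕ) (h : ∀ c, 1 ≤ c → c ≤ x → Q c) : x ≤ ct Q x := by
  classical
  unfold ct
  have h1 : Icc 1 x ⊆ (range (x + 1)).filter Q := by
    intro z hz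
    rw [mem_Icc] at hz
    rw [mem_filter, mem_range]
    exact ⟨by omega, h z hz.1 hz.2⟩
  have h2 := card_le_card h1
  rw [Nat.card_Icc, Nat.add_sub_cancel] at h2
  exact h2

theorem ct_NT (x : ℕ) :
    x ≤ ct (fun c => 1 ≤ c ∧ ¬ IsT m c) x + ct (IsT m) x := by
  have h1 := ct_ge (fun c => 1 ≤ c) x (fun c hc _ => hc)
  have h2 := ct_or (fun c => 1 ≤ c) (fun c => 1 ≤ c ∧ ¬ IsT m c) (IsT m) x (by
    intro c _ hc
    by_cases h : IsT m c
    · exact Or.inr h
    · exact Or.inl ⟨hc, h⟩)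
  exact h1.trans h2

/-- **The lower density is less than `2/3`**: `m n ≥ (41/27) n` for infinitely many `n`. -/
theorem result {m : ℕ → ℕ} (hm : IsMacMahon m) (N : ℕ) : ∃ n, N ≤ n ∧ 41 * n ≤ 27 * m n := by
  by_contra hcon
  push Not at hcon
  -- the counting function
  have hA : ∀ x, m (N + 1) ≤ x → 27 * x < 41 * (cnt m x + 1) := by
    intro x hx
    have h1 := (le_cnt hm (n := N + 1) (x := x) (by omega)).2 hx
    have h2 : x < m (cnt m x + 1) := by
      by_contra h
      have := (le_cnt hm (n := cnt m x + 1) (x := x) (by omega)).2 (by omega)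
      omega
    have h3 := hcon (cnt m x + 1) (by omega)
    omega
  have hB : ∀ x, 2 * m (N + 1) + 2 ≤ x → 82 * ct (IsB m) x ≤ x + 500 := by
    intro x hx
    have h1 := ct_all hm x
    have h2 := ct_S hm x
    have h3 := ct_T hm x
    have h4 := hA x (by omega)
    have h5 := hA (x / 2) (by omega)
    omega
  obtain ⟨y, hy1, hy2⟩ : ∃ y, 2 * m (N + 1) + 2 ≤ y ∧ 131072 ≤ y :=
    ⟨2 * m (N + 1) + 131072, by omega, by omega⟩
  have h1 := ct_N hm y
  have h2 := ct_FF hm y
  have h3 := ct_PP hm (2 * y)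
  have h4 := ct_NT (m := m) y
  have h5 := ct_T hm y
  have h6 := cnt_le hm y
  have h7 := log_small hy2
  have b1 := hB (y + 1) (by omega)
  have b2 := hB (2 * y + 3) (by omega)
  have b3 := hB (2 * (2 * y) + 5) (by omega)
  have b4 := hB (3 * (2 * y) + 5) (by omega)
  have b5 := hB (6 * (2 * y) + 10) (by omega)
  omega

end Pool.Agent.Results.MP_bfbd7b_nt.StrictDensity
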