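import Mathlib

/-!
# MacMahon's primes of measurement: logarithmic averages
-/

set_option autoImplicit false

namespace Pool.Agent.Results.MP_bfbd7b_nt.WindowInequality

open Finset Filter

/-- `m 1 < m 2 < ⋯` are MacMahon's primes of measurement: `m 1 = 1`, and `m (n + 1)` is the least
`x > m n` which is not a sum `m i + ⋯ + m j` with `1 ≤ i < j ≤ n`. (The value `m 0` is not used.) -/
structure IsMacMahon (m : ℕ → ℕ) : Prop where
  one : m 1 = 1
  succ : ∀ n, 1 ≤ n → IsLeast {x : ℕ | m n < x ∧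
    ∀ i j, 1 ≤ i → i < j → j ≤ n → x ≠ ∑ k ∈ Icc i j, m k} (m (n + 1))

/-- The sum of `1 / m n` over all `n ≥ N` with `m n ≤ x` (these `n` are at most `x`). -/
noncomputable def recip (m : ℕ → ℕ) (N x : ℕ) : ℝ :=
  ∑ n ∈ Icc N x with m n ≤ x, (1 : ℝ) / m n

variable {m : ℕ → ℕ}

theorem lt_succ (hm : IsMacMahon m) {n : ℕ} (hn : 1 ≤ n) : m n < m (n + 1) :=
  (hm.succ n hn).1.1

theorem mono (hm : IsMacMahon m) {a b : ℕ} (ha : 1 ≤ a) (hab : a ≤ b) : m a + (b - a) ≤ m b := by
  induction b, hab using Nat.le_induction with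
  | base => simp
  | succ b hb ih =>
    have := lt_succ hm (le_trans ha hb)
    omega

theorem le_self (hm : IsMacMahon m) {n : ℕ} (hn : 1 ≤ n) : n ≤ m n := by
  have := mono hm le_rfl hn
  have h1 := hm.one
  omega

theorem covered (hm : IsMacMahon m) {z : ℕ} (hz : 1 ≤ z) :
    ∃ i j, 1 ≤ i ∧ i ≤ j ∧ z = ∑ k ∈ Icc i j, m k := by
  classical
  -- the last n with m n ≤ z
  have hex : ∃ n, z < m (n + 1) := ⟨z, lt_of_lt_of_le (Nat.lt_succ_self z) (le_self hm (by omega))⟩
  obtain ⟨n, hn, hmin⟩ : ∃ n, z < m (n + 1) ∧ ∀ k < n, ¬ z < m (k + 1) :=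
    ⟨Nat.find hex, Nat.find_spec hex, fun k hk => Nat.find_min hex hk⟩
  have hn1 : 1 ≤ n := by
    by_contra h
    have : n = 0 := by omega
    subst this
    rw [zero_add, hm.one] at hn
    omega
  have hle : m n ≤ z := by
    have := hmin (n - 1) (by omega)
    rw [Nat.sub_add_cancel hn1] at this
    omega
  rcases hle.eq_or_lt with h | h
  · exact ⟨n, n, hn1, le_rfl, by simp [h]⟩
  · by_contra hcon
    push Not at hcon
    have : z ∈ {x : ℕ | m n < x ∧
        ∀ i j, 1 ≤ i → i < j → j ≤ n → x ≠ ∑ k ∈ Icc i j, m k} :=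
      ⟨h, fun i j hi hij _ => hcon i j hi hij.le⟩
    have := (hm.succ n hn1).2 this
    omega

/-- windows starting at `i` with `r` terms -/
def win (m : ℕ → ℕ) (i r : ℕ) : ℕ := ∑ k ∈ range r, m (i + k)

theorem win_ge_mul (hm : IsMacMahon m) {i : ℕ} (hi : 1 ≤ i) (r : ℕ) : r * m i ≤ win m i r := by
  unfold win
  calc r * m i = ∑ _k ∈ range r, m i := by simp
    _ ≤ _ := sum_le_sum fun k _ => by
      have := mono hm hi (Nat.le_add_right i k)
      omega

theorem win_ge_sq (hm : IsMacMahon m) {i : ℕ} (hi : 1 ≤ i) (r : ℕ) : r ^ 2 ≤ 2 * win m i r := by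
  unfold win
  induction r with
  | zero => simp
  | succ r ih =>
    rw [sum_range_succ]
    have h1 := le_self hm (n := i + r) (by omega)
    nlinarith

theorem covered' (hm : IsMacMahon m) {z : ℕ} (hz : 1 ≤ z) :
    ∃ i r, 1 ≤ i ∧ 1 ≤ r ∧ z = win m i r := by
  obtain ⟨i, j, hi, hij, h⟩ := covered hm hz
  refine ⟨i, j + 1 - i, hi, by omega, ?_⟩
  rw [h]
  unfold win
  rw [← Finset.sum_Ico_eq_sum_range m i (j + 1)]
  rfl

theorem main_ineq (hm : IsMacMahon m) {N x : ℕ} (hN : 1 ≤ N) (hx : 1 ≤ x) :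
    1 - ((N : ℝ) - 1) * √(2 / x) ≤ recip m N x := by
  classical
  -- the set of pairs
  set S := (Nat.sqrt (2 * x)) with hS
  let W1 : Finset (ℕ × ℕ) := (Icc 1 (N - 1)) ×ˢ (Icc 1 S)
  let W2 : Finset (Σ _ : ℕ, ℕ) := ({n ∈ Icc N x | m n ≤ x}).sigma fun n => Icc 1 (x / m n)
  have hcov : Icc 1 x ⊆ (W1.image fun p => win m p.1 p.2) ∪ (W2.image fun p => win m p.1 p.2) := by
    intro z hz
    rw [mem_Icc] at hz
    obtain ⟨i, r, hi, hr, h⟩ := covered' hm hz.1
    rw [mem_union, mem_image, mem_image]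
    have hmi : m i ≤ z := by
      have := win_ge_mul hm hi r
      rw [← h] at this
      calc m i = 1 * m i := by ring
        _ ≤ r * m i := Nat.mul_le_mul_right _ hr
        _ ≤ z := this
    rcases lt_or_ge i N with hiN | hiN
    · left
      refine ⟨(i, r), ?_, h.symm⟩
      simp only [W1, mem_product, mem_Icc]
      refine ⟨⟨hi, by omega⟩, hr, ?_⟩
      rw [hS, Nat.le_sqrt']
      have := win_ge_sq hm hi r
      rw [← h] at this
      omega
    · right
      refine ⟨⟨i, r⟩, ?_, h.symm⟩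
      simp only [W2, mem_sigma, mem_filter, mem_Icc]
      have h3 := le_self hm hi
      refine ⟨⟨⟨hiN, by omega⟩, by omega⟩, hr, ?_⟩
      rw [Nat.le_div_iff_mul_le (by omega)]
      have := win_ge_mul hm hi r
      omega
  have hcard : x ≤ (N - 1) * S + ∑ n ∈ Icc N x with m n ≤ x, x / m n := by
    calc x = (Icc 1 x).card := by simp
      _ ≤ _ := card_le_card hcov
      _ ≤ _ := card_union_le _ _
      _ ≤ W1.card + W2.card := add_le_add card_image_le card_image_le
      _ = _ := by
        simp only [W1, W2, card_product, card_sigma, Nat.card_Icc]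
        congr 1
  have hxr : (0 : ℝ) < x := by exact_mod_cast hx
  have h1 : (x : ℝ) ≤ ((N : ℝ) - 1) * √(2 * x) + x * recip m N x := by
    calc (x : ℝ) ≤ (((N - 1) * S + ∑ n ∈ Icc N x with m n ≤ x, x / m n : ℕ) : ℝ) := by
          exact_mod_cast hcard
      _ = ((N : ℝ) - 1) * S + ∑ n ∈ Icc N x with m n ≤ x, ((x / m n : ℕ) : ℝ) := by
        push_cast [Nat.cast_sub hN]
        ring
      _ ≤ ((N : ℝ) - 1) * √(2 * x) + ∑ n ∈ Icc N x with m n ≤ x, x * (1 / (m n : ℝ)) := by
        gcongr with n hn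
        · have : (1 : ℝ) ≤ N := by exact_mod_cast hN
          linarith
        · apply Real.le_sqrt_of_sq_le
          have := Nat.sqrt_le' (2 * x)
          rw [← hS] at this
          exact_mod_cast this
        · calc ((x / m n : ℕ) : ℝ) ≤ (x : ℝ) / (m n : ℝ) := Nat.cast_div_le
            _ = _ := by ring
      _ = _ := by
        unfold recip
        rw [mul_sum]
  have h2 : √(2 * x) = x * √(2 / x) := by
    rw [show (2 : ℝ) * x = x ^ 2 * (2 / x) by field_simp, Real.sqrt_mul (by positivity),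
      Real.sqrt_sq hxr.le]
  rw [h2] at h1
  have h3 : (x : ℝ) * (1 - ((N : ℝ) - 1) * √(2 / x)) ≤ x * recip m N x := by nlinarith
  exact le_of_mul_le_mul_left h3 hxr

/-! ### Consequences -/

theorem inv_mul_log_le {n : ℕ} (hn : 3 ≤ n) :
    1 / ((n : ℝ) * Real.log n) ≤ Real.log (Real.log n) - Real.log (Real.log ((n - 1 : ℕ) : ℝ)) := by
  have hn' : (3 : ℝ) ≤ n := by exact_mod_cast hn
  have hc : ((n - 1 : ℕ) : ℝ) = (n : ℝ) - 1 := by
    rw [Nat.cast_sub (by omega)]
    simp
  rw [hc]
  have hl1 : 0 < Real.log ((n : ℝ) - 1) := Real.log_pos (by linarith)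
  have hl2 : 0 < Real.log (n : ℝ) := Real.log_pos (by linarith)
  have h1 : 1 / (n : ℝ) ≤ Real.log n - Real.log ((n : ℝ) - 1) := by
    have := Real.one_sub_inv_le_log_of_pos (x := (n : ℝ) / ((n : ℝ) - 1))
      (div_pos (by linarith) (by linarith))
    rw [Real.log_div (by linarith) (by linarith)] at this
    refine le_trans (le_of_eq ?_) this
    field_simp
    ring
  have h2 : (Real.log n - Real.log ((n : ℝ) - 1)) / Real.log n ≤
      Real.log (Real.log n) - Real.log (Real.log ((n : ℝ) - 1)) := by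
    have := Real.one_sub_inv_le_log_of_pos (x := Real.log n / Real.log ((n : ℝ) - 1))
      (div_pos hl2 hl1)
    rw [Real.log_div hl2.ne' hl1.ne'] at this
    refine le_trans (le_of_eq ?_) this
    field_simp
  calc 1 / ((n : ℝ) * Real.log n) = (1 / (n : ℝ)) / Real.log n := by field_simp
    _ ≤ (Real.log n - Real.log ((n : ℝ) - 1)) / Real.log n := by gcongr
    _ ≤ _ := h2

theorem sum_inv_mul_log_le {N X : ℕ} (hN : 2 ≤ N) (hX : N ≤ X) :
    ∑ n ∈ Icc (N + 1) X, 1 / ((n : ℝ) * Real.log n) ≤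
      Real.log (Real.log X) - Real.log (Real.log N) := by
  induction X, hX using Nat.le_induction with
  | base => simp
  | succ X hX ih =>
    rw [← Finset.insert_Icc_right_eq_Icc_add_one (by omega), sum_insert (by simp)]
    have := inv_mul_log_le (n := X + 1) (by omega)
    rw [Nat.add_sub_cancel] at this
    linarith

theorem recip_nonneg (N x : ℕ) : 0 ≤ recip m N x := by
  unfold recip
  positivity

/-- `n` with `m n` small, between `N` and `K N ^ 2`. -/
theorem exists_small (hm : IsMacMahon m) {ε : ℝ} (hε : 0 < ε) :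
    ∃ K : ℕ, ∀ᶠ N : ℕ in atTop, ∃ n, N ≤ n ∧ n ≤ K * N ^ 2 ∧
      (m n : ℝ) ≤ (Real.log 2 + ε) * (n * Real.log n) := by
  have hlog2 : 0 < Real.log 2 := Real.log_pos (by norm_num)
  set q := Real.log 2 / (Real.log 2 + ε) with hq
  have hq1 : q < 1 := by
    rw [hq, div_lt_one (by positivity)]
    linarith
  -- choose K
  have hK : ∀ᶠ K : ℕ in atTop, √(2 / (K : ℝ)) < (1 - q) / 2 := by
    have h0 : Tendsto (fun K : ℕ => √(2 / (K : ℝ))) atTop (nhds 0) := by
      rw [show (0 : ℝ) = √0 by simp]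
      exact (Real.continuous_sqrt.tendsto 0).comp
        (tendsto_const_nhds.div_atTop tendsto_natCast_atTop_atTop)
    exact h0.eventually (gt_mem_nhds (by linarith))
  obtain ⟨K, hK, hK1⟩ := (hK.and (eventually_ge_atTop 1)).exists
  refine ⟨K, ?_⟩
  -- limit
  have hKr : (1 : ℝ) ≤ K := by exact_mod_cast hK1
  have hlim : Tendsto (fun N : ℕ => (1 / (Real.log 2 + ε)) * (1 / ((N : ℝ) * Real.log N) +
      Real.log ((Real.log K + 2 * Real.log N) / Real.log N))) atTop
      (nhds ((1 / (Real.log 2 + ε)) * (0 + Real.log (0 + 2)))) := by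
    have hlN : Tendsto (fun N : ℕ => Real.log (N : ℝ)) atTop atTop :=
      Real.tendsto_log_atTop.comp tendsto_natCast_atTop_atTop
    refine Tendsto.const_mul _ (Tendsto.add ?_ ?_)
    · exact tendsto_const_nhds.div_atTop (tendsto_natCast_atTop_atTop.atTop_mul_atTop₀ hlN)
    · have h1 : Tendsto (fun N : ℕ => Real.log K / Real.log (N : ℝ) + 2) atTop
          (nhds (0 + 2)) := (tendsto_const_nhds.div_atTop hlN).add tendsto_const_nhds
      have h2 := (Real.continuousAt_log (x := 0 + 2) (by norm_num)).tendsto.comp h1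
      refine h2.congr' ?_
      filter_upwards [eventually_ge_atTop 2] with N hN
      have : 0 < Real.log (N : ℝ) := Real.log_pos (by exact_mod_cast hN)
      simp only [Function.comp]
      congr 1
      field_simp
  have hlt : (1 / (Real.log 2 + ε)) * (0 + Real.log (0 + 2)) < (1 + q) / 2 := by
    have : (1 / (Real.log 2 + ε)) * (0 + Real.log (0 + 2)) = q := by
      rw [hq]
      norm_num
      field_simp
    rw [this]
    linarith
  filter_upwards [hlim.eventually (gt_mem_nhds hlt), eventually_ge_atTop 2] with N hN hN2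
  by_contra hcon
  push Not at hcon
  have hNr : (2 : ℝ) ≤ N := by exact_mod_cast hN2
  have hlN : 0 < Real.log (N : ℝ) := Real.log_pos (by linarith)
  have hlK : 0 ≤ Real.log (K : ℝ) := Real.log_nonneg hKr
  have hX : N ≤ K * N ^ 2 := by
    calc N ≤ N ^ 2 := Nat.le_self_pow (by norm_num) N
      _ = 1 * N ^ 2 := by ring
      _ ≤ K * N ^ 2 := Nat.mul_le_mul_right _ hK1
  have hmain := main_ineq hm (N := N) (x := K * N ^ 2) (by omega) (by omega)
  -- upper bound for recip
  have hup : recip m N (K * N ^ 2) ≤ ∑ n ∈ Icc N (K * N ^ 2),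
      1 / ((Real.log 2 + ε) * (n * Real.log n)) := by
    unfold recip
    refine le_trans (sum_le_sum (g := fun n : ℕ => 1 / ((Real.log 2 + ε) * (n * Real.log n)))
      fun n hn => ?_) (sum_le_sum_of_subset_of_nonneg (filter_subset _ _) fun n hn _ => ?_)
    · rw [mem_filter, mem_Icc] at hn
      have h1 := hcon n hn.1.1 hn.1.2
      have hn2 : (2 : ℝ) ≤ n := by exact_mod_cast le_trans hN2 hn.1.1
      have : 0 < Real.log (n : ℝ) := Real.log_pos (by linarith)
      exact one_div_le_one_div_of_le (by positivity) h1.le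
    · rw [mem_Icc] at hn
      have hn2 : (2 : ℝ) ≤ n := by exact_mod_cast le_trans hN2 hn.1
      have : 0 < Real.log (n : ℝ) := Real.log_pos (by linarith)
      positivity
  have hup2 : ∑ n ∈ Icc N (K * N ^ 2), 1 / ((Real.log 2 + ε) * ((n : ℝ) * Real.log n)) ≤
      (1 / (Real.log 2 + ε)) * (1 / ((N : ℝ) * Real.log N) +
      Real.log ((Real.log K + 2 * Real.log N) / Real.log N)) := by
    have h1 : ∀ n : ℕ, 1 / ((Real.log 2 + ε) * ((n : ℝ) * Real.log n)) =
        (1 / (Real.log 2 + ε)) * (1 / ((n : ℝ) * Real.log n)) := fun n => by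
      rw [one_div_mul_one_div]
    simp_rw [h1]
    rw [← mul_sum]
    refine mul_le_mul_of_nonneg_left ?_ (by positivity)
    rw [← Finset.insert_Icc_add_one_left_eq_Icc hX, sum_insert (by simp)]
    refine add_le_add le_rfl ?_
    refine le_trans (sum_inv_mul_log_le hN2 hX) (le_of_eq ?_)
    push_cast
    rw [Real.log_mul (by positivity) (by positivity), Real.log_pow, Real.log_div _ hlN.ne']
    · norm_num
    · positivity
  have hsq : ((N : ℝ) - 1) * √(2 / ((K * N ^ 2 : ℕ) : ℝ)) ≤ √(2 / (K : ℝ)) := by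
    have h1 : (2 : ℝ) / ((K * N ^ 2 : ℕ) : ℝ) = (2 / K) * (1 / (N : ℝ)) ^ 2 := by
      push_cast
      field_simp
    rw [h1, Real.sqrt_mul (by positivity), Real.sqrt_sq (by positivity)]
    have h2 : ((N : ℝ) - 1) * (1 / N) ≤ 1 := by
      rw [mul_one_div, div_le_one (by positivity)]
      linarith
    calc ((N : ℝ) - 1) * (√(2 / (K : ℝ)) * (1 / N)) = √(2 / (K : ℝ)) * (((N : ℝ) - 1) * (1 / N)) := by
          ring
      _ ≤ √(2 / (K : ℝ)) * 1 := by gcongr
      _ = _ := mul_one _
  linarith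

theorem recip_split {N x : ℕ} (hN : 1 ≤ N) (hx : N ≤ x) :
    recip m 1 (N - 1) + recip m N x ≤ recip m 1 x := by
  unfold recip
  rw [← sum_union]
  · refine sum_le_sum_of_subset_of_nonneg ?_ fun n _ _ => by positivity
    intro n hn
    simp only [mem_union, mem_filter, mem_Icc] at hn ⊢
    rcases hn with hn | hn
    · exact ⟨⟨hn.1.1, by omega⟩, by omega⟩
    · exact ⟨⟨by omega, hn.1.2⟩, hn.2⟩
  · rw [disjoint_left]
    intro n hn hn'
    simp only [mem_filter, mem_Icc] at hn hn'
    omega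

theorem log_sum (hm : IsMacMahon m) {c : ℝ} (hc : c < 1 / Real.log 2) :
    ∀ᶠ x : ℕ in atTop, c * Real.log (Real.log x) ≤ recip m 1 x := by
  have hlog2 : 0 < Real.log 2 := Real.log_pos (by norm_num)
  obtain ⟨c', hc1, hc2⟩ : ∃ c', max c 0 < c' ∧ c' < 1 / Real.log 2 :=
    exists_between (max_lt hc (by positivity))
  have hcc : c < c' := (le_max_left _ _).trans_lt hc1
  have hc0 : 0 < c' := (le_max_right _ _).trans_lt hc1
  have hc3 : c' * Real.log 2 < 1 := by
    rwa [lt_div_iff₀ hlog2] at hc2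
  -- choose η
  obtain ⟨η, hη, hη2⟩ : ∃ η : ℝ, 0 < η ∧ c' * Real.log (2 + η) < 1 := by
    have h1 : Tendsto (fun η : ℝ => c' * Real.log (2 + η)) (nhdsWithin 0 (Set.Ioi 0))
        (nhds (c' * Real.log (2 + 0))) := by
      refine Tendsto.const_mul _ ?_
      refine ((Real.continuousAt_log (x := 2 + 0) (by norm_num)).tendsto.comp
        (tendsto_const_nhds.add tendsto_id)).mono_left nhdsWithin_le_nhds
    have h2 : c' * Real.log (2 + 0) < 1 := by simpa using hc3
    obtain ⟨η, h3, h4⟩ := ((h1.eventually (gt_mem_nhds h2)).and self_mem_nhdsWithin).exists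
    exact ⟨η, h4, h3⟩
  -- choose K
  obtain ⟨K, hK, hK1⟩ : ∃ K : ℕ, c' * Real.log (2 + η) ≤ 1 - √(2 / (K : ℝ)) ∧ 1 ≤ K := by
    have h0 : Tendsto (fun K : ℕ => √(2 / (K : ℝ))) atTop (nhds 0) := by
      rw [show (0 : ℝ) = √0 by simp]
      exact (Real.continuous_sqrt.tendsto 0).comp
        (tendsto_const_nhds.div_atTop tendsto_natCast_atTop_atTop)
    obtain ⟨K, h1, h2⟩ := ((h0.eventually (gt_mem_nhds
      (show 0 < 1 - c' * Real.log (2 + η) by linarith))).and (eventually_ge_atTop 1)).exists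
    exact ⟨K, by linarith, h2⟩
  have hKr : (1 : ℝ) ≤ K := by exact_mod_cast hK1
  set g : ℕ → ℕ := fun x => Nat.sqrt (x / K) with hg
  have hgt : Tendsto g atTop atTop := by
    have h1 : Tendsto (fun x : ℕ => x / K) atTop atTop :=
      Nat.tendsto_div_const_atTop (by omega)
    have h2 : Tendsto Nat.sqrt atTop atTop := by
      refine tendsto_atTop.2 fun b => ?_
      filter_upwards [eventually_ge_atTop (b ^ 2)] with a ha
      rwa [Nat.le_sqrt']
    exact h2.comp h1
  have hlg : Tendsto (fun x => Real.log (g x : ℝ)) atTop atTop :=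
    Real.tendsto_log_atTop.comp (tendsto_natCast_atTop_atTop.comp hgt)
  -- X0
  obtain ⟨X0, hX0⟩ : ∃ X0, ∀ x ≥ X0, Real.log (4 * K) / η ≤ Real.log (g x : ℝ) ∧ 3 ≤ g x ∧
      3 ≤ x := by
    exact eventually_atTop.1 ((hlg.eventually_ge_atTop _).and ((hgt.eventually_ge_atTop 3).and
      (eventually_ge_atTop 3)))
  have hkey : ∀ x ≥ X0, Real.log (Real.log x) ≤ Real.log (2 + η) + Real.log (Real.log (g x)) := by
    intro x hx
    obtain ⟨h1, h2, h3⟩ := hX0 x hx
    have hgr : (3 : ℝ) ≤ g x := by exact_mod_cast h2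
    have hxr : (3 : ℝ) ≤ x := by exact_mod_cast h3
    have h4 : x < K * (g x + 1) ^ 2 := by
      have h5 : x / K < (g x + 1) ^ 2 := Nat.lt_succ_sqrt' (x / K)
      rw [mul_comm]
      exact (Nat.div_lt_iff_lt_mul (by omega)).1 h5
    have h6 : (x : ℝ) ≤ 4 * K * (g x : ℝ) ^ 2 := by
      have : (x : ℝ) < K * ((g x : ℝ) + 1) ^ 2 := by exact_mod_cast h4
      refine this.le.trans ?_
      have : ((g x : ℝ) + 1) ^ 2 ≤ 4 * (g x : ℝ) ^ 2 := by nlinarith
      nlinarith
    have hlgx : 0 < Real.log (g x : ℝ) := Real.log_pos (by linarith)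
    have h7 : Real.log x ≤ (2 + η) * Real.log (g x) := by
      calc Real.log x ≤ Real.log (4 * K * (g x : ℝ) ^ 2) := Real.log_le_log (by linarith) h6
        _ = Real.log (4 * K) + 2 * Real.log (g x) := by
          rw [Real.log_mul (by positivity) (by positivity), Real.log_pow]
          norm_num
        _ ≤ η * Real.log (g x) + 2 * Real.log (g x) := by
          rw [div_le_iff₀ hη] at h1
          linarith
        _ = _ := by ring
    rw [← Real.log_mul (by linarith) hlgx.ne']
    exact Real.log_le_log (Real.log_pos (by linarith)) h7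
  have hglt : ∀ x ≥ X0, g x < x := by
    intro x hx
    obtain ⟨h1, h2, h3⟩ := hX0 x hx
    calc g x ≤ Nat.sqrt x := Nat.sqrt_le_sqrt (Nat.div_le_self x K)
      _ < x := Nat.sqrt_lt_self (by omega)
  set C := c' * (Real.log (Real.log (max X0 3 : ℕ)) + Real.log (2 + η)) with hC
  have hlog3 : 1 ≤ Real.log 3 := by
    rw [Real.le_log_iff_exp_le (by norm_num)]
    linarith [Real.exp_one_lt_d9]
  have hind : ∀ x : ℕ, X0 ≤ x → c' * Real.log (Real.log x) - C ≤ recip m 1 x := by
    intro x
    induction x using Nat.strong_induction_on with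
    | _ x ih =>
      intro hx
      obtain ⟨h1, h2, h3⟩ := hX0 x hx
      have hk := hkey x hx
      have hgr : (3 : ℝ) ≤ g x := by exact_mod_cast h2
      have hlgx : 0 < Real.log (g x : ℝ) := Real.log_pos (by linarith)
      rcases lt_or_ge (g x) X0 with hlt | hge
      · have h4 : Real.log (Real.log (g x)) ≤ Real.log (Real.log (max X0 3 : ℕ)) := by
          refine Real.log_le_log hlgx (Real.log_le_log (by linarith) ?_)
          exact_mod_cast hlt.le.trans (le_max_left _ _)
        have h5 : c' * Real.log (Real.log x) ≤ C := by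
          rw [hC]
          gcongr
          linarith
        have := recip_nonneg (m := m) 1 x
        linarith
      · have h4 := ih (g x) (hglt x hx) hge
        have h5 := recip_split (m := m) (N := g x + 1) (x := x) (by omega) (hglt x hx)
        rw [Nat.add_sub_cancel] at h5
        have h6 := main_ineq hm (N := g x + 1) (x := x) (by omega) (by omega)
        have h7 : ((g x + 1 : ℕ) : ℝ) - 1 = g x := by
          push_cast
          ring
        rw [h7] at h6
        have h8 : (g x : ℝ) * √(2 / x) ≤ √(2 / K) := by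
          have hxr : (0 : ℝ) < x := by
            have : 0 < x := by omega
            exact_mod_cast this
          apply Real.le_sqrt_of_sq_le
          rw [mul_pow, Real.sq_sqrt (by positivity)]
          have h9 : g x ^ 2 ≤ x / K := Nat.sqrt_le' (x / K)
          have h10 : (g x : ℝ) ^ 2 ≤ (x : ℝ) / K := by
            calc (g x : ℝ) ^ 2 ≤ ((x / K : ℕ) : ℝ) := by exact_mod_cast h9
              _ ≤ _ := Nat.cast_div_le
          calc (g x : ℝ) ^ 2 * (2 / x) ≤ (x : ℝ) / K * (2 / x) := by gcongr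
            _ = 2 / K := by field_simp
        have h11 : c' * Real.log (Real.log x) ≤
            c' * (Real.log (2 + η) + Real.log (Real.log (g x))) := by gcongr
        nlinarith
  have hll : Tendsto (fun x : ℕ => Real.log (Real.log (x : ℝ))) atTop atTop :=
    Real.tendsto_log_atTop.comp (Real.tendsto_log_atTop.comp tendsto_natCast_atTop_atTop)
  filter_upwards [eventually_ge_atTop X0, hll.eventually_ge_atTop (C / (c' - c))] with x hx1 hx2
  have h1 := hind x hx1
  rw [div_le_iff₀ (by linarith)] at hx2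
  nlinarith

/-- The sequence exists; it is unique by its recursive definition (up to the unused `m 0`). -/
theorem exists_macMahon : ∃ m, IsMacMahon m := by
  classical
  -- strong recursion through initial segments
  have hne : ∀ (f : ℕ → ℕ) (n : ℕ), ∃ x : ℕ, IsLeast {x : ℕ | f n < x ∧
      ∀ i j, 1 ≤ i → i < j → j ≤ n → x ≠ ∑ k ∈ Icc i j, f k} x := by
    intro f n
    have h : ∃ x : ℕ, f n < x ∧ ∀ i j, 1 ≤ i → i < j → j ≤ n → x ≠ ∑ k ∈ Icc i j, f k := by
      refine ⟨f n + 1 + ∑ k ∈ Icc 1 n, f k, by omega, fun i j hi hij hj h => ?_⟩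
      have : ∑ k ∈ Icc i j, f k ≤ ∑ k ∈ Icc 1 n, f k :=
        sum_le_sum_of_subset (Icc_subset_Icc hi hj)
      omega
    exact ⟨Nat.find h, Nat.find_spec h, fun x hx => Nat.find_min' h hx⟩
  choose step hstep using hne
  let F : ℕ → (ℕ → ℕ) := fun n => Nat.rec (fun _ => 1)
    (fun n f => Function.update f (n + 1) (if n = 0 then 1 else step f n)) n
  have hF : ∀ n, F (n + 1) = Function.update (F n) (n + 1) (if n = 0 then 1 else step (F n) n) :=
    fun n => rfl
  have hstab : ∀ n k, k ≤ n → F n k = F k k := by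
    intro n
    induction n with
    | zero =>
      intro k hk
      have : k = 0 := by omega
      rw [this]
    | succ n ih =>
      intro k hk
      rcases hk.eq_or_lt with h | h
      · rw [h]
      · rw [hF, Function.update_of_ne (by omega)]
        exact ih k (by omega)
  refine ⟨fun n => F n n, ?_, ?_⟩
  · show F (0 + 1) 1 = 1
    rw [hF 0]
    simp
  · intro n hn
    have h1 : F (n + 1) (n + 1) = step (F n) n := by
      rw [hF, Function.update_self, if_neg (by omega)]
    have hsum : ∀ i j, j ≤ n → ∑ k ∈ Icc i j, F n k = ∑ k ∈ Icc i j, F k k := fun i j hj =>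
      sum_congr rfl fun k hk => hstab n k (by rw [mem_Icc] at hk; omega)
    show IsLeast _ (F (n + 1) (n + 1))
    rw [h1]
    refine ⟨⟨(hstep (F n) n).1.1, fun i j hi hij hj => ?_⟩, fun x hx => ?_⟩
    · rw [← hsum i j hj]
      exact (hstep (F n) n).1.2 i j hi hij hj
    · exact (hstep (F n) n).2 ⟨hx.1, fun i j hi hij hj => by
        rw [hsum i j hj]
        exact hx.2 i j hi hij hj⟩

/-- The reciprocals of the MacMahon numbers `m n` with `n ≥ N` and `m n ≤ x` have a sum of at
least `1 - (N - 1) √(2 / x)`. See `exists_small` and `log_sum` for consequences. -/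
theorem result (m : ℕ → ℕ) (hm : IsMacMahon m) (N x : ℕ) (hN : 1 ≤ N) (hx : 1 ≤ x) :
    1 - ((N : ℝ) - 1) * √(2 / x) ≤ recip m N x :=
  main_ineq hm hN hx

end Pool.Agent.Results.MP_bfbd7b_nt.WindowInequality
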